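import Mathlib

namespace Pool.Agent.Results.MP_1aba1b_co.BoundedPositions

open Finset

/-- The number of edges of colour j incident with v. -/
noncomputable def colourDegree {V : Type} {k : ℕ} (G : SimpleGraph V) (f : Sym2 V → Fin k)
    (j : Fin k) (v : V) : ℕ :=
  {e : Sym2 V | e ∈ G.edgeSet ∧ v ∈ e ∧ f e = j}.ncard

/-- e_j[v]: the number of edges of colour j with both endpoints in the closed neighbourhood
of v. -/
noncomputable def closedCount {V : Type} {k : ℕ} (G : SimpleGraph V) (f : Sym2 V → Fin k)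
    (j : Fin k) (v : V) : ℕ :=
  {e : Sym2 V | e ∈ G.edgeSet ∧ f e = j ∧ ∀ x ∈ e, x = v ∨ G.Adj v x}.ncard

/-- The sequence a (indexed by 0, ..., k-1) is a k-flip sequence: positive, strictly increasing
and realised by an edge-coloured finite nonempty simple graph in which every vertex has exactly
a j incident edges of colour j, while in every closed neighbourhood the numbers of edges of
colour j are strictly decreasing in j. -/
def IsFlipSeq {k : ℕ} (a : Fin k → ℕ) : Prop :=
  (∀ j, 0 < a j) ∧ StrictMono a ∧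
    ∃ (V : Type) (_ : Finite V) (_ : Nonempty V) (G : SimpleGraph V) (f : Sym2 V → Fin k),
      (∀ v j, colourDegree G f j v = a j) ∧
      (∀ v, StrictAnti (fun j => closedCount G f j v))

section bridge

variable {V : Type} [Fintype V] {k : ℕ}

open Classical in
lemma colourDegree_eq (G : SimpleGraph V) (f : Sym2 V → Fin k) (j : Fin k) (v : V) :
    colourDegree G f j v = (univ.filter (fun y : V => G.Adj v y ∧ f s(v, y) = j)).card := by
  unfold colourDegree
  have h : {e : Sym2 V | e ∈ G.edgeSet ∧ v ∈ e ∧ f e = j} =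
      (fun y => s(v, y)) '' {y : V | G.Adj v y ∧ f s(v, y) = j} := by
    ext e
    constructor
    · rintro ⟨h1, h2, h3⟩
      obtain ⟨y, rfl⟩ := h2
      exact ⟨y, ⟨by simpa using h1, h3⟩, rfl⟩
    · rintro ⟨y, ⟨h1, h2⟩, rfl⟩
      exact ⟨by simpa using h1, by simp, h2⟩
  rw [h, Set.ncard_image_of_injective _ (fun x y hxy => Sym2.congr_right.1 hxy)]
  rw [← Set.ncard_coe_finset]
  congr 1
  ext y
  simp

open Classical in
lemma closedCount_eq (G : SimpleGraph V) (f : Sym2 V → Fin k) (j : Fin k) (v : V) :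
    2 * closedCount G f j v = (univ.filter (fun p : V × V =>
      (G.Adj p.1 p.2 ∧ f s(p.1, p.2) = j) ∧ (p.1 = v ∨ G.Adj v p.1) ∧
        (p.2 = v ∨ G.Adj v p.2))).card := by
  set H : SimpleGraph V :=
    { Adj := fun x y => (G.Adj x y ∧ f s(x, y) = j) ∧ (x = v ∨ G.Adj v x) ∧
        (y = v ∨ G.Adj v y)
      symm := ⟨by
        rintro x y ⟨⟨h1, h2⟩, h3, h4⟩
        refine ⟨⟨h1.symm, ?_⟩, h4, h3⟩
        rw [Sym2.eq_swap]; exact h2⟩
      loopless := ⟨by
        rintro x ⟨⟨h1, _⟩, _⟩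
        exact G.loopless.irrefl x h1⟩ } with hH
  have h1 : closedCount G f j v = H.edgeFinset.card := by
    unfold closedCount
    rw [← Set.ncard_coe_finset]
    congr 1
    ext e
    induction e with
    | _ x y =>
      simp only [SimpleGraph.coe_edgeFinset, SimpleGraph.mem_edgeSet, Set.mem_ofPred_eq,
        Sym2.mem_iff, forall_eq_or_imp, forall_eq]
      constructor
      · rintro ⟨h1, h2, h3, h4⟩
        exact ⟨⟨h1, h2⟩, h3, h4⟩
      · rintro ⟨⟨h1, h2⟩, h3, h4⟩
        exact ⟨h1, h2, h3, h4⟩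
  rw [h1, ← SimpleGraph.sum_degrees_eq_twice_card_edges]
  rw [Finset.card_filter, Fintype.sum_prod_type]
  refine Finset.sum_congr rfl fun x _ => ?_
  rw [← SimpleGraph.card_neighborFinset_eq_degree, ← Finset.card_filter]
  congr 1
  ext y
  simp [SimpleGraph.mem_neighborFinset, hH]

end bridge


section upper

variable {V : Type} [Fintype V]

/-- The trilinear triangle form. -/
def T3 (P Q S : V → V → ℝ) : ℝ := ∑ v, ∑ x, ∑ y, P v x * Q v y * S x y

lemma T3_swap12 {P Q S : V → V → ℝ} (hS : ∀ x y, S x y = S y x) : T3 P Q S = T3 Q P S := by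
  unfold T3
  refine Finset.sum_congr rfl fun v _ => ?_
  rw [Finset.sum_comm]
  refine Finset.sum_congr rfl fun x _ => ?_
  refine Finset.sum_congr rfl fun y _ => ?_
  rw [hS y x]; ring

lemma T3_swap23 {P Q S : V → V → ℝ} (hP : ∀ x y, P x y = P y x) : T3 P Q S = T3 P S Q := by
  unfold T3
  rw [Finset.sum_comm]
  refine Finset.sum_congr rfl fun x _ => ?_
  refine Finset.sum_congr rfl fun v _ => ?_
  refine Finset.sum_congr rfl fun y _ => ?_
  rw [hP x v]; ring

lemma T3_add1 (P P' Q S : V → V → ℝ) :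
    T3 (fun x y => P x y + P' x y) Q S = T3 P Q S + T3 P' Q S := by
  unfold T3
  simp only [← Finset.sum_add_distrib]
  refine Finset.sum_congr rfl fun v _ => ?_
  refine Finset.sum_congr rfl fun x _ => ?_
  refine Finset.sum_congr rfl fun y _ => ?_
  ring

lemma T3_add2 (P Q Q' S : V → V → ℝ) :
    T3 P (fun x y => Q x y + Q' x y) S = T3 P Q S + T3 P Q' S := by
  unfold T3
  simp only [← Finset.sum_add_distrib]
  refine Finset.sum_congr rfl fun v _ => ?_
  refine Finset.sum_congr rfl fun x _ => ?_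
  refine Finset.sum_congr rfl fun y _ => ?_
  ring

lemma T3_lin3 (P Q S S' : V → V → ℝ) (a b : ℝ) :
    T3 P Q (fun x y => a * S x y + b * S' x y) = a * T3 P Q S + b * T3 P Q S' := by
  unfold T3
  simp only [Finset.mul_sum, ← Finset.sum_add_distrib]
  refine Finset.sum_congr rfl fun v _ => ?_
  refine Finset.sum_congr rfl fun x _ => ?_
  refine Finset.sum_congr rfl fun y _ => ?_
  ring

end upper

section upper2

variable {V : Type} [Fintype V] {k : ℕ}

open Classical in
/-- Adjacency indicator. -/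
noncomputable def aI (G : SimpleGraph V) (x y : V) : ℝ := if G.Adj x y then 1 else 0

open Classical in
/-- Colour class indicator. -/
noncomputable def cI (G : SimpleGraph V) (f : Sym2 V → Fin k) (j : Fin k) (x y : V) : ℝ :=
  if G.Adj x y ∧ f s(x, y) = j then 1 else 0

lemma cI_symm (G : SimpleGraph V) (f : Sym2 V → Fin k) (j : Fin k) (x y : V) :
    cI G f j x y = cI G f j y x := by
  unfold cI
  rw [G.adj_comm, Sym2.eq_swap]

lemma cI_self (G : SimpleGraph V) (f : Sym2 V → Fin k) (j : Fin k) (x : V) :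
    cI G f j x x = 0 := by
  simp [cI]

lemma closed_formula (G : SimpleGraph V) (f : Sym2 V → Fin k) (j : Fin k) (v : V) :
    2 * (closedCount G f j v : ℝ) = 2 * (colourDegree G f j v : ℝ) +
      ∑ x, ∑ y, aI G v x * aI G v y * cI G f j x y := by
  classical
  have h1 : 2 * (closedCount G f j v : ℝ) = ∑ x, ∑ y,
      cI G f j x y * ((if x = v then 1 else 0) + aI G v x) *
        ((if y = v then 1 else 0) + aI G v y) := by
    have h := closedCount_eq G f j v
    have h' : 2 * (closedCount G f j v : ℝ) = ((2 * closedCount G f j v : ℕ) : ℝ) := by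
      push_cast; ring
    rw [h', h, Finset.card_filter, Fintype.sum_prod_type]
    push_cast
    refine Finset.sum_congr rfl fun x _ => Finset.sum_congr rfl fun y _ => ?_
    have hind : ∀ z : V, ((if z = v then 1 else 0) + aI G v z : ℝ) =
        if (z = v ∨ G.Adj v z) then 1 else 0 := by
      intro z
      by_cases hz : z = v
      · subst hz; simp [aI]
      · simp [aI, hz]
    rw [hind, hind]
    unfold cI
    by_cases c1 : G.Adj x y ∧ f s(x, y) = j <;> by_cases c2 : (x = v ∨ G.Adj v x) <;>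
      by_cases c3 : (y = v ∨ G.Adj v y) <;> simp only [c1, c2, c3, if_true, if_false] <;> simp
  have h2 : (colourDegree G f j v : ℝ) = ∑ y, cI G f j v y := by
    rw [colourDegree_eq, Finset.card_filter]
    push_cast
    rfl
  have hAC : ∀ y, aI G v y * cI G f j v y = cI G f j v y := by
    intro y
    unfold aI cI
    by_cases c1 : G.Adj v y <;> simp [c1]
  rw [h1, h2]
  have e1 : ∀ x y, cI G f j x y * ((if x = v then 1 else 0) + aI G v x) *
        ((if y = v then 1 else 0) + aI G v y) =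
      (if x = v then (cI G f j x y * (if y = v then 1 else 0)) else 0) +
      (if x = v then cI G f j x y * aI G v y else 0) +
      (if y = v then cI G f j x y * aI G v x else 0) +
      aI G v x * aI G v y * cI G f j x y := by
    intro x y
    by_cases hx : x = v <;> by_cases hy : y = v <;> simp [hx, hy] <;> ring
  simp only [e1, Finset.sum_add_distrib]
  have e2 : ∑ x, ∑ y, (if x = v then (cI G f j x y * (if y = v then 1 else 0)) else 0) =
      (0 : ℝ) := by
    rw [Finset.sum_eq_single v]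
    · simp [cI_self]
    · intro b _ hb; simp [hb]
    · simp
  have e3 : ∑ x, ∑ y, (if x = v then cI G f j x y * aI G v y else 0) =
      ∑ y, cI G f j v y := by
    rw [Finset.sum_eq_single v]
    · refine Finset.sum_congr rfl fun y _ => ?_
      rw [if_pos rfl, mul_comm, hAC]
    · intro b _ hb; simp [hb]
    · simp
  have e4 : ∑ x, ∑ y, (if y = v then cI G f j x y * aI G v x else 0) =
      ∑ y, cI G f j v y := by
    refine Finset.sum_congr rfl fun x _ => ?_
    rw [Finset.sum_eq_single v]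
    · rw [if_pos rfl, cI_symm G f j x v, mul_comm, hAC]
    · intro b _ hb; simp [hb]
    · simp
  rw [e2, e3, e4]
  ring

end upper2


section counting

open Classical in
/-- Number of elements satisfying p. -/
noncomputable def cn {α : Type} [Fintype α] (p : α → Prop) : ℕ := (univ.filter p).card

variable {α β : Type} [Fintype α] [Fintype β]

lemma cn_le {p q : α → Prop} (h : ∀ x, p x → q x) : cn p ≤ cn q := by
  classical
  unfold cn
  exact Finset.card_le_card (fun x hx => by
    simp only [Finset.mem_filter, Finset.mem_univ, true_and] at hx ⊢; exact h x hx)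

lemma cn_congr {p q : α → Prop} (h : ∀ x, p x ↔ q x) : cn p = cn q :=
  le_antisymm (cn_le fun x => (h x).1) (cn_le fun x => (h x).2)

lemma cn_param_le {p : α → Prop} {q : β → Prop} (g : α → β)
    (h : ∀ y, q y → ∃ x, p x ∧ g x = y) : cn q ≤ cn p := by
  classical
  unfold cn
  calc (univ.filter q).card ≤ ((univ.filter p).image g).card := by
        refine Finset.card_le_card fun y hy => ?_
        simp only [Finset.mem_filter, Finset.mem_univ, true_and] at hy
        obtain ⟨x, hx, rfl⟩ := h y hy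
        exact Finset.mem_image_of_mem g (by simpa using hx)
    _ ≤ (univ.filter p).card := Finset.card_image_le

lemma cn_param_ge {p : α → Prop} {q : β → Prop} (g : α → β)
    (hinj : ∀ x y, p x → p y → g x = g y → x = y) (h : ∀ x, p x → q (g x)) : cn p ≤ cn q := by
  classical
  unfold cn
  have h1 : ((univ.filter p).image g).card = (univ.filter p).card := by
    refine Finset.card_image_of_injOn ?_
    intro x hx y hy hxy
    simp only [Finset.coe_filter, Finset.mem_univ, true_and] at hx hy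
    exact hinj x y hx hy hxy
  rw [← h1]
  refine Finset.card_le_card fun y hy => ?_
  obtain ⟨x, hx, rfl⟩ := Finset.mem_image.1 hy
  simp only [Finset.mem_filter, Finset.mem_univ, true_and] at hx ⊢
  exact h x hx

lemma cn_param {p : α → Prop} {q : β → Prop} (g : α → β)
    (hinj : ∀ x y, p x → p y → g x = g y → x = y) (h : ∀ y, q y ↔ ∃ x, p x ∧ g x = y) :
    cn q = cn p :=
  le_antisymm (cn_param_le g fun y => (h y).1)
    (cn_param_ge g hinj fun x hx => (h (g x)).2 ⟨x, hx, rfl⟩)

lemma cn_or_le (p q : α → Prop) : cn (fun x => p x ∨ q x) ≤ cn p + cn q := by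
  classical
  unfold cn
  refine (Finset.card_le_card (t := univ.filter p ∪ univ.filter q) ?_).trans
    (Finset.card_union_le _ _)
  intro x hx
  simpa using hx

lemma cn_or_eq {p q : α → Prop} (h : ∀ x, p x → q x → False) :
    cn (fun x => p x ∨ q x) = cn p + cn q := by
  classical
  unfold cn
  rw [← Finset.card_union_of_disjoint]
  · congr 1
    ext x
    simp
  · rw [Finset.disjoint_filter]
    exact fun x _ hp hq => h x hp hq

lemma cn_pairs (Q : α → β → Prop) :
    cn (fun z : α × β => Q z.1 z.2) = ∑ x, cn (Q x) := by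
  classical
  unfold cn
  rw [Finset.card_filter, Fintype.sum_prod_type]
  refine Finset.sum_congr rfl fun x _ => ?_
  rw [Finset.card_filter]

lemma sum_if_const (p : α → Prop) (c : ℕ) [DecidablePred p] :
    ∑ x, (if p x then c else 0) = cn p * c := by
  classical
  unfold cn
  rw [← Finset.sum_filter, Finset.sum_const, smul_eq_mul]
  congr!

/-- Pairs with a guard on the first coordinate and exact fibre size. -/
lemma cn_guard_eq (p : α → Prop) (Q : α → β → Prop) (c : ℕ) (h : ∀ x, p x → cn (Q x) = c) :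
    cn (fun z : α × β => p z.1 ∧ Q z.1 z.2) = cn p * c := by
  classical
  rw [cn_pairs (fun x y => p x ∧ Q x y), ← sum_if_const p c]
  refine Finset.sum_congr rfl fun x _ => ?_
  by_cases hx : p x
  · rw [if_pos hx, ← h x hx]
    exact cn_congr fun y => by simp [hx]
  · rw [if_neg hx]
    unfold cn
    simp [hx]

lemma cn_guard_le (p : α → Prop) (Q : α → β → Prop) (c : ℕ) (h : ∀ x, p x → cn (Q x) ≤ c) :
    cn (fun z : α × β => p z.1 ∧ Q z.1 z.2) ≤ cn p * c := by
  classical
  rw [cn_pairs (fun x y => p x ∧ Q x y), ← sum_if_const p c]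
  refine Finset.sum_le_sum fun x _ => ?_
  by_cases hx : p x
  · rw [if_pos hx]
    exact (cn_le fun y hy => hy.2).trans (h x hx)
  · rw [if_neg hx]
    unfold cn
    simp [hx]

lemma cn_guard_ge (p : α → Prop) (Q : α → β → Prop) (c : ℕ) (h : ∀ x, p x → c ≤ cn (Q x)) :
    cn p * c ≤ cn (fun z : α × β => p z.1 ∧ Q z.1 z.2) := by
  classical
  rw [cn_pairs (fun x y => p x ∧ Q x y), ← sum_if_const p c]
  refine Finset.sum_le_sum fun x _ => ?_
  by_cases hx : p x
  · rw [if_pos hx]
    exact (h x hx).trans (cn_le fun y hy => ⟨hx, hy⟩)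
  · rw [if_neg hx]
    exact Nat.zero_le _

lemma cn_true : cn (fun _ : α => True) = Fintype.card α := by
  classical
  unfold cn
  simp [Finset.card_univ]

lemma cn_prod (p : α → Prop) (q : β → Prop) :
    cn (fun z : α × β => p z.1 ∧ q z.2) = cn p * cn q :=
  cn_guard_eq p (fun _ y => q y) (cn q) fun _ _ => rfl

lemma cn_fst (p : α → Prop) : cn (fun z : α × β => p z.1) = cn p * Fintype.card β := by
  rw [← cn_true (α := β), ← cn_prod]
  exact cn_congr fun z => by simp

lemma cn_ne {n : ℕ} (p : Fin (n + 1)) : cn (fun x : Fin (n + 1) => x ≠ p) = n := by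
  classical
  unfold cn
  have h : (univ.erase p).card = n := by simp
  refine Eq.trans ?_ h
  congr 1
  ext x
  simp

lemma cn_erase {p : α → Prop} (a : α) (ha : p a) : cn p = cn (fun x => x ≠ a ∧ p x) + 1 := by
  classical
  have h1 : cn (fun x : α => x = a) = 1 := by
    unfold cn
    rw [Finset.card_eq_one]
    exact ⟨a, by ext x; simp⟩
  rw [← h1, ← cn_or_eq (fun x h h' => h.1 h')]
  refine cn_congr fun x => ?_
  by_cases hx : x = a
  · subst hx; simp [ha]
  · simp [hx]

lemma cn_swap (Q : α → β → Prop) :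
    cn (fun z : β × α => Q z.2 z.1) = cn (fun z : α × β => Q z.1 z.2) :=
  cn_param (fun z => (z.2, z.1)) (fun x y _ _ h => by
    obtain ⟨a, b⟩ := x; obtain ⟨c, d⟩ := y; simp only [Prod.mk.injEq] at h ⊢; exact ⟨h.2, h.1⟩)
    (fun y => ⟨fun h => ⟨(y.2, y.1), h, rfl⟩, fun ⟨x, hx, hxy⟩ => by rw [← hxy]; exact hx⟩)

lemma cn_bool_ne (b : Bool) (d : ℕ) : cn (fun w : Bool × Fin d => b ≠ w.1) = d := by
  rw [cn_fst (fun c : Bool => b ≠ c)]
  have : cn (fun c : Bool => b ≠ c) = 1 := by
    classical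
    unfold cn
    rw [Finset.card_eq_one]
    exact ⟨!b, by ext x; cases b <;> cases x <;> simp⟩
  rw [this]; simp

end counting

section bridge2

variable {V : Type} [Fintype V] {k : ℕ}

lemma colourDegree_cn (G : SimpleGraph V) (f : Sym2 V → Fin k) (j : Fin k) (v : V) :
    colourDegree G f j v = cn (fun y : V => G.Adj v y ∧ f s(v, y) = j) := by
  rw [colourDegree_eq]
  unfold cn
  congr!

lemma closedCount_cn (G : SimpleGraph V) (f : Sym2 V → Fin k) (j : Fin k) (v : V) :
    2 * closedCount G f j v = cn (fun p : V × V =>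
      (G.Adj p.1 p.2 ∧ f s(p.1, p.2) = j) ∧ (p.1 = v ∨ G.Adj v p.1) ∧
        (p.2 = v ∨ G.Adj v p.2)) := by
  rw [closedCount_eq]
  unfold cn
  congr!

end bridge2


section upperk

/-- Upper bound: if k ≤ 3q then the last entry is bounded in terms of the entry in
position q. -/
theorem flip_upper {k : ℕ} (a : Fin k → ℕ) (h : IsFlipSeq a) (q : ℕ) (hq : 1 ≤ q)
    (hk : k ≤ 3 * q) (H : ℕ) (hH : ∀ j : Fin k, (j : ℕ) < q → a j ≤ H) (l : Fin k)
    (hl : q ≤ (l : ℕ)) : a l ≤ k * (k * H + (k * H) ^ 2) := by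
  classical
  obtain ⟨hpos, hmono, V, hfin, hne, G, f, hd, hs⟩ := h
  haveI : Fintype V := Fintype.ofFinite V
  set S : Finset (Fin k) := univ.filter (fun j => (j : ℕ) < q) with hS
  set L : Finset (Fin k) := univ.filter (fun j => ¬ (j : ℕ) < q) with hL
  set B : V → V → ℝ := fun x y => ∑ j ∈ S, cI G f j x y with hB
  set R : V → V → ℝ := fun x y => ∑ j ∈ L, cI G f j x y with hR
  have hA : ∀ x y, aI G x y = B x y + R x y := by
    intro x y
    simp only [hB, hR, hS, hL]
    rw [Finset.sum_filter_add_sum_filter_not]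
    unfold aI cI
    by_cases c : G.Adj x y
    · simp [c]
    · simp [c]
  have hc0 : ∀ j x y, 0 ≤ cI G f j x y := by
    intro j x y
    unfold cI
    split_ifs <;> norm_num
  have hB0 : ∀ x y, 0 ≤ B x y := fun x y => Finset.sum_nonneg fun j _ => hc0 j x y
  have hR0 : ∀ x y, 0 ≤ R x y := fun x y => Finset.sum_nonneg fun j _ => hc0 j x y
  have hBs : ∀ x y, B x y = B y x := fun x y => by
    simp only [hB]
    exact Finset.sum_congr rfl fun j _ => cI_symm G f j x y
  have hRs : ∀ x y, R x y = R y x := fun x y => by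
    simp only [hR]
    exact Finset.sum_congr rfl fun j _ => cI_symm G f j x y
  have hBR : ∀ x y, B x y + R x y ≤ 1 := by
    intro x y
    rw [← hA]
    unfold aI
    split_ifs <;> norm_num
  set AA : ℝ := ∑ j ∈ S, (a j : ℝ) with hAA
  set DD : ℝ := ∑ j ∈ L, (a j : ℝ) with hDD
  have hdeg : ∀ v, ∑ x, B v x = AA := by
    intro v
    simp only [hB, hAA]
    rw [Finset.sum_comm]
    refine Finset.sum_congr rfl fun j _ => ?_
    rw [← hd v j, colourDegree_eq, Finset.card_filter]
    push_cast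
    rfl
  -- local inequality
  set κ : ℝ := (L.card : ℝ) with hκ
  set σ : ℝ := (S.card : ℝ) with hσ
  have hloc : ∀ v, (0 : ℝ) ≤ 2 * (κ * AA - σ * DD) +
      ∑ x, ∑ y, (B v x + R v x) * (B v y + R v y) * (κ * B x y + (-σ) * R x y) := by
    intro v
    have e1 : ∑ j ∈ S, 2 * (closedCount G f j v : ℝ) = 2 * AA +
        ∑ x, ∑ y, (B v x + R v x) * (B v y + R v y) * B x y := by
      have : ∀ j ∈ S, 2 * (closedCount G f j v : ℝ) = 2 * (a j : ℝ) +
          ∑ x, ∑ y, (B v x + R v x) * (B v y + R v y) * cI G f j x y := by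
        intro j _
        rw [closed_formula, hd v j]
        simp only [hA]
      rw [Finset.sum_congr rfl this, Finset.sum_add_distrib, ← Finset.mul_sum]
      congr 1
      rw [Finset.sum_comm]
      refine Finset.sum_congr rfl fun x _ => ?_
      rw [Finset.sum_comm]
      refine Finset.sum_congr rfl fun y _ => ?_
      rw [← Finset.mul_sum]
    have e2 : ∑ j ∈ L, 2 * (closedCount G f j v : ℝ) = 2 * DD +
        ∑ x, ∑ y, (B v x + R v x) * (B v y + R v y) * R x y := by
      have : ∀ j ∈ L, 2 * (closedCount G f j v : ℝ) = 2 * (a j : ℝ) +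
          ∑ x, ∑ y, (B v x + R v x) * (B v y + R v y) * cI G f j x y := by
        intro j _
        rw [closed_formula, hd v j]
        simp only [hA]
      rw [Finset.sum_congr rfl this, Finset.sum_add_distrib, ← Finset.mul_sum]
      congr 1
      rw [Finset.sum_comm]
      refine Finset.sum_congr rfl fun x _ => ?_
      rw [Finset.sum_comm]
      refine Finset.sum_congr rfl fun y _ => ?_
      rw [← Finset.mul_sum]
    have e3 : σ * ∑ j ∈ L, 2 * (closedCount G f j v : ℝ) ≤
        κ * ∑ j ∈ S, 2 * (closedCount G f j v : ℝ) := by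
      have h1 : σ * ∑ j ∈ L, 2 * (closedCount G f j v : ℝ) =
          ∑ i ∈ S, ∑ j ∈ L, 2 * (closedCount G f j v : ℝ) := by
        rw [Finset.sum_const, nsmul_eq_mul]
      have h2 : κ * ∑ j ∈ S, 2 * (closedCount G f j v : ℝ) =
          ∑ i ∈ S, ∑ j ∈ L, 2 * (closedCount G f i v : ℝ) := by
        rw [Finset.sum_comm, Finset.sum_const, nsmul_eq_mul]
      rw [h1, h2]
      refine Finset.sum_le_sum fun i hi => Finset.sum_le_sum fun j hj => ?_
      have hi' : (i : ℕ) < q := by simpa [hS] using hi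
      have hj' : ¬ (j : ℕ) < q := by simpa [hL] using hj
      have hij : i < j := by rw [Fin.lt_def]; omega
      have : closedCount G f j v < closedCount G f i v := hs v hij
      have : (closedCount G f j v : ℝ) ≤ closedCount G f i v := by exact_mod_cast this.le
      linarith
    rw [e1, e2] at e3
    have e4 : ∑ x, ∑ y, (B v x + R v x) * (B v y + R v y) * (κ * B x y + (-σ) * R x y) =
        κ * (∑ x, ∑ y, (B v x + R v x) * (B v y + R v y) * B x y) -
        σ * (∑ x, ∑ y, (B v x + R v x) * (B v y + R v y) * R x y) := by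
      simp only [Finset.mul_sum, ← Finset.sum_sub_distrib]
      refine Finset.sum_congr rfl fun x _ => Finset.sum_congr rfl fun y _ => ?_
      ring
    rw [e4]
    linarith
  have hsum : (0 : ℝ) ≤ ∑ v : V, (2 * (κ * AA - σ * DD) +
      ∑ x, ∑ y, (B v x + R v x) * (B v y + R v y) * (κ * B x y + (-σ) * R x y)) :=
    Finset.sum_nonneg fun v _ => hloc v
  rw [Finset.sum_add_distrib, Finset.sum_const, Finset.card_univ, nsmul_eq_mul] at hsum
  have hT : ∑ v, ∑ x, ∑ y, (B v x + R v x) * (B v y + R v y) * (κ * B x y + (-σ) * R x y) =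
      T3 (fun x y => B x y + R x y) (fun x y => B x y + R x y)
      (fun x y => κ * B x y + (-σ) * R x y) := rfl
  rw [hT, T3_add1, T3_add2, T3_add2, T3_lin3, T3_lin3, T3_lin3, T3_lin3] at hsum
  have h1 : T3 B R B = T3 B B R := T3_swap23 hBs
  have h2 : T3 R B B = T3 B B R := by rw [T3_swap12 hBs, h1]
  have h3 : T3 R B R = T3 B R R := T3_swap12 hRs
  have h4 : T3 R R B = T3 B R R := by rw [T3_swap23 hRs, h3]
  rw [h1, h2, h3, h4] at hsum
  have T0 : ∀ P Q W : V → V → ℝ, (∀ x y, 0 ≤ P x y) → (∀ x y, 0 ≤ Q x y) →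
      (∀ x y, 0 ≤ W x y) → 0 ≤ T3 P Q W := by
    intro P Q W hP hQ hW
    exact Finset.sum_nonneg fun v _ => Finset.sum_nonneg fun x _ => Finset.sum_nonneg fun y _ =>
      mul_nonneg (mul_nonneg (hP _ _) (hQ _ _)) (hW _ _)
  have t1 : 0 ≤ T3 B B R := T0 _ _ _ hB0 hB0 hR0
  have t2 : 0 ≤ T3 B R R := T0 _ _ _ hB0 hR0 hR0
  have t3 : 0 ≤ T3 R R R := T0 _ _ _ hR0 hR0 hR0
  have t4 : 0 ≤ T3 B B B := T0 _ _ _ hB0 hB0 hB0
  have hBB : T3 B B B + T3 B B R ≤ (Fintype.card V : ℝ) * AA ^ 2 := by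
    unfold T3
    rw [← Finset.sum_add_distrib]
    have : ∀ v ∈ (univ : Finset V), (∑ x, ∑ y, B v x * B v y * B x y +
        ∑ x, ∑ y, B v x * B v y * R x y) ≤ AA ^ 2 := by
      intro v _
      simp only [← Finset.sum_add_distrib]
      calc ∑ x, ∑ y, (B v x * B v y * B x y + B v x * B v y * R x y)
          ≤ ∑ x, ∑ y, B v x * B v y := by
            refine Finset.sum_le_sum fun x _ => Finset.sum_le_sum fun y _ => ?_
            rw [← mul_add]
            calc B v x * B v y * (B x y + R x y) ≤ B v x * B v y * 1 :=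
                  mul_le_mul_of_nonneg_left (hBR x y) (mul_nonneg (hB0 _ _) (hB0 _ _))
              _ = B v x * B v y := mul_one _
        _ = AA ^ 2 := by
            simp only [← Finset.mul_sum]
            rw [hdeg v, ← Finset.sum_mul, hdeg v]; ring
    calc _ ≤ ∑ _v : V, AA ^ 2 := Finset.sum_le_sum this
      _ = _ := by rw [Finset.sum_const, Finset.card_univ, nsmul_eq_mul]
  -- sizes of S and L
  have hScard : S.card = q := by
    have hqk : q ≤ k := hl.trans l.2.le
    have : S = (Finset.univ : Finset (Fin q)).map (Fin.castLEEmb hqk) := by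
      ext j
      simp only [hS, Finset.mem_filter, Finset.mem_univ, true_and, Finset.mem_map,
        Fin.castLEEmb_apply]
      constructor
      · intro hj
        exact ⟨⟨j, hj⟩, rfl⟩
      · rintro ⟨i, rfl⟩
        exact i.2
    rw [this, Finset.card_map, Finset.card_univ, Fintype.card_fin]
  have hSL : S.card + L.card = k := by
    have := Finset.card_filter_add_card_filter_not (s := (univ : Finset (Fin k)))
      (fun j : Fin k => (j : ℕ) < q)
    simpa [hS, hL] using this
  have hκσ : κ ≤ 2 * σ := by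
    have : L.card ≤ 2 * S.card := by omega
    rw [hκ, hσ]
    exact_mod_cast this
  have hσ1 : 1 ≤ σ := by
    rw [hσ, hScard]; exact_mod_cast hq
  have hκ0 : 0 ≤ κ := by rw [hκ]; positivity
  have hκk : κ ≤ k := by
    rw [hκ]
    have : L.card ≤ k := by omega
    exact_mod_cast this
  have hn : (0 : ℝ) < Fintype.card V := by exact_mod_cast Fintype.card_pos
  have hAA0 : 0 ≤ AA := Finset.sum_nonneg fun j _ => by positivity
  have hDD0 : 0 ≤ DD := Finset.sum_nonneg fun j _ => by positivity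
  have hfinal : (Fintype.card V : ℝ) * (σ * DD) ≤
      (Fintype.card V : ℝ) * (κ * (AA + AA ^ 2)) := by
    have u1 : κ * (T3 B B B + T3 B B R) ≤ κ * ((Fintype.card V : ℝ) * AA ^ 2) :=
      mul_le_mul_of_nonneg_left hBB hκ0
    have u2 : (κ - 2 * σ) * T3 B R R ≤ 0 := by
      have : 0 ≤ (2 * σ - κ) * T3 B R R := mul_nonneg (by linarith) t2
      linarith
    have u3 : 0 ≤ σ * T3 R R R := mul_nonneg (by linarith) t3
    have u4 : 0 ≤ κ * T3 B B B := mul_nonneg hκ0 t4
    have u5 : 0 ≤ σ * T3 B B R := mul_nonneg (by linarith) t1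
    nlinarith [u1, u2, u3, u4, u5, hsum]
  have hD : σ * DD ≤ κ * (AA + AA ^ 2) := le_of_mul_le_mul_left hfinal hn
  have hD' : DD ≤ σ * DD := by nlinarith
  have hlD : (a l : ℝ) ≤ DD := by
    rw [hDD]
    refine Finset.single_le_sum (f := fun j => (a j : ℝ)) (fun j _ => by positivity) ?_
    simp only [hL, Finset.mem_filter, Finset.mem_univ, true_and]
    omega
  have hAH : AA ≤ k * H := by
    calc AA ≤ ∑ _j ∈ S, (H : ℝ) := by
          refine Finset.sum_le_sum fun j hj => ?_
          have hj' : (j : ℕ) < q := by simpa [hS] using hj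
          exact_mod_cast hH j hj'
      _ = S.card * H := by rw [Finset.sum_const, nsmul_eq_mul]
      _ ≤ k * H := by
          have : (S.card : ℝ) ≤ k := by
            have : S.card ≤ k := by omega
            exact_mod_cast this
          exact mul_le_mul_of_nonneg_right this (by positivity)
  have hlast : (a l : ℝ) ≤ k * (k * H + (k * H) ^ 2) := by
    calc (a l : ℝ) ≤ DD := hlD
      _ ≤ σ * DD := hD'
      _ ≤ κ * (AA + AA ^ 2) := hD
      _ ≤ k * (AA + AA ^ 2) := mul_le_mul_of_nonneg_right hκk (by positivity)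
      _ ≤ k * (k * H + (k * H) ^ 2) := by
          refine mul_le_mul_of_nonneg_left ?_ (by positivity)
          gcongr
  exact_mod_cast hlast

end upperk

section cayley

variable {Γ : Type} [Fintype Γ] [AddCommGroup Γ] {k : ℕ}

/-- Cayley graph of an elementary abelian 2-group with coloured connection set. -/
def CG (h2 : ∀ x : Γ, x + x = 0) (Cc : Fin k → Γ → Prop) (h0 : ∀ i, ¬ Cc i 0) :
    SimpleGraph Γ where
  Adj x y := ∃ c, Cc c (x + y)
  symm := ⟨by
    rintro x y ⟨c, h⟩
    exact ⟨c, by rwa [add_comm y x]⟩⟩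
  loopless := ⟨by
    rintro x ⟨c, h⟩
    rw [h2 x] at h
    exact h0 c h⟩

open Classical in
noncomputable def Cf (Cc : Fin k → Γ → Prop) (j0 : Fin k) : Sym2 Γ → Fin k :=
  Sym2.lift ⟨fun x y => if h : ∃ c, Cc c (x + y) then h.choose else j0, by
    intro x y
    show (if h : ∃ c, Cc c (x + y) then h.choose else j0) =
      (if h : ∃ c, Cc c (y + x) then h.choose else j0)
    rw [add_comm x y]⟩

lemma CG_iff (h2 : ∀ x : Γ, x + x = 0) (Cc : Fin k → Γ → Prop) (h0 : ∀ i, ¬ Cc i 0)
    (hex : ∀ i j w, Cc i w → Cc j w → i = j) (j0 j : Fin k) (x y : Γ) :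
    ((CG h2 Cc h0).Adj x y ∧ Cf Cc j0 s(x, y) = j) ↔ Cc j (x + y) := by
  classical
  constructor
  · rintro ⟨h, hj⟩
    have hh : ∃ c, Cc c (x + y) := h
    unfold Cf at hj
    simp only [Sym2.lift_mk, dif_pos hh] at hj
    rw [← hj]
    exact hh.choose_spec
  · intro h
    have hh : ∃ c, Cc c (x + y) := ⟨j, h⟩
    refine ⟨hh, ?_⟩
    unfold Cf
    simp only [Sym2.lift_mk, dif_pos hh]
    exact hex _ _ _ hh.choose_spec h

lemma add_add_self (h2 : ∀ x : Γ, x + x = 0) (v s : Γ) : v + (v + s) = s := by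
  rw [← add_assoc, h2, zero_add]

lemma CG_degree (h2 : ∀ x : Γ, x + x = 0) (Cc : Fin k → Γ → Prop) (h0 : ∀ i, ¬ Cc i 0)
    (hex : ∀ i j w, Cc i w → Cc j w → i = j) (j0 : Fin k) (v : Γ) (j : Fin k) :
    colourDegree (CG h2 Cc h0) (Cf Cc j0) j v = cn (Cc j) := by
  rw [colourDegree_cn]
  refine cn_param (fun s => v + s) (fun x y _ _ h => add_left_cancel h) ?_
  intro y
  rw [CG_iff h2 Cc h0 hex]
  constructor
  · intro h
    exact ⟨v + y, h, add_add_self h2 v y⟩
  · rintro ⟨s, hs, rfl⟩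
    rw [add_add_self h2]; exact hs

lemma closed_formula_cn {V : Type} [Fintype V] {k : ℕ} (G : SimpleGraph V) (f : Sym2 V → Fin k)
    (j : Fin k) (v : V) :
    2 * closedCount G f j v = 2 * colourDegree G f j v +
      cn (fun p : V × V => (G.Adj p.1 p.2 ∧ f s(p.1, p.2) = j) ∧ G.Adj v p.1 ∧ G.Adj v p.2) := by
  classical
  have h := closed_formula G f j v
  have h1 : ∑ x, ∑ y, aI G v x * aI G v y * cI G f j x y =
      ((cn (fun p : V × V => (G.Adj p.1 p.2 ∧ f s(p.1, p.2) = j) ∧ G.Adj v p.1 ∧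
        G.Adj v p.2) : ℕ) : ℝ) := by
    unfold cn
    rw [Finset.card_filter, Fintype.sum_prod_type]
    push_cast
    refine Finset.sum_congr rfl fun x _ => Finset.sum_congr rfl fun y _ => ?_
    unfold aI cI
    by_cases c1 : G.Adj v x <;> by_cases c2 : G.Adj v y <;>
      by_cases c3 : (G.Adj x y ∧ f s(x, y) = j) <;> simp [c1, c2, c3]
  rw [h1] at h
  exact_mod_cast h

lemma CG_closed (h2 : ∀ x : Γ, x + x = 0) (Cc : Fin k → Γ → Prop) (h0 : ∀ i, ¬ Cc i 0)
    (hex : ∀ i j w, Cc i w → Cc j w → i = j) (j0 : Fin k) (v : Γ) (j : Fin k) :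
    2 * closedCount (CG h2 Cc h0) (Cf Cc j0) j v = 2 * cn (Cc j) +
      cn (fun z : Γ × Γ => Cc j z.1 ∧ ((∃ c, Cc c z.2) ∧ (∃ c, Cc c (z.2 + z.1)))) := by
  rw [closed_formula_cn, CG_degree h2 Cc h0 hex]
  congr 1
  refine cn_param (fun z => (v + z.2, v + (z.2 + z.1))) ?_ ?_
  · rintro ⟨a, b⟩ ⟨a', b'⟩ _ _ h
    obtain ⟨h3, h4⟩ := Prod.mk.inj h
    have h5 : b = b' := add_left_cancel h3
    subst h5
    have h6 := add_left_cancel h4
    have h7 : a = a' := add_left_cancel h6
    rw [h7]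
  · rintro ⟨x, y⟩
    simp only
    rw [CG_iff h2 Cc h0 hex]
    constructor
    · rintro ⟨h3, ⟨c, h4⟩, ⟨c', h5⟩⟩
      have e : v + x + (x + y) = v + y := by
        rw [add_assoc, add_add_self h2 x y]
      refine ⟨(x + y, v + x), ⟨h3, ⟨c, h4⟩, ⟨c', by simp only; rw [e]; exact h5⟩⟩, ?_⟩
      simp only
      rw [e, add_add_self h2, add_add_self h2]
    · rintro ⟨⟨w, s⟩, ⟨h3, ⟨c, h4⟩, ⟨c', h5⟩⟩, h⟩
      obtain ⟨rfl, rfl⟩ := Prod.mk.inj h
      simp only at h3 h4 h5 ⊢
      refine ⟨?_, ⟨c, ?_⟩, ⟨c', ?_⟩⟩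
      · have : v + s + (v + (s + w)) = w := by
          rw [show v + s + (v + (s + w)) = (v + v) + ((s + s) + w) by abel, h2, h2, zero_add,
            zero_add]
        rw [this]; exact h3
      · change Cc c (v + (v + s))
        rw [add_add_self h2]; exact h4
      · change Cc c' (v + (v + (s + w)))
        rw [add_add_self h2]; exact h5

end cayley

lemma cn_zero {α : Type} [Fintype α] {p : α → Prop} (h : ∀ x, ¬ p x) : cn p = 0 := by
  classical
  unfold cn
  rw [Finset.card_eq_zero, Finset.filter_eq_empty_iff]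
  exact fun x _ => h x

section explicit

variable {k : ℕ}

/-- vectors over the field with two elements -/
abbrev E2 (J : Type) := J → ZMod 2

lemma e2_add_self {J : Type} (x : E2 J) : x + x = 0 := by
  funext j
  have : ∀ a : ZMod 2, a + a = 0 := by decide
  exact this (x j)

variable {J I K : Type} [Fintype J] [Fintype I] [Fintype K] [DecidableEq J] [DecidableEq I]
  [DecidableEq K]

/-- unit vector -/
def uv {J : Type} [DecidableEq J] (a : J) : E2 J := Pi.single a 1

lemma uv_ne (a : J) : uv a ≠ 0 := by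
  intro h
  have := congrFun h a
  simp [uv] at this

lemma uv_inj {a b : J} (h : uv a = uv b) : a = b := by
  by_contra hne
  have := congrFun h a
  simp [uv, hne] at this

lemma uv_add_ne (a b c : J) : uv a + uv b ≠ uv c := by
  intro h
  have h1 : ∑ j, (uv a + uv b) j = ∑ j, uv c j := by rw [h]
  simp only [Pi.add_apply, Finset.sum_add_distrib, uv, Finset.sum_pi_single', Finset.mem_univ,
    if_true] at h1
  exact absurd h1 (by decide)

/-- the coloured connection set -/
def Co (cJ : J → Fin k) (cI' : I → Fin k) (cK : K → Fin k) (c : Fin k)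
    (w : E2 J × (E2 I × E2 K)) : Prop :=
  (∃ a, cJ a = c ∧ w = (uv a, (0, 0))) ∨ (∃ i, cI' i = c ∧ w.2 = (uv i, 0)) ∨
    (∃ i, cK i = c ∧ w = (0, (0, uv i)))

/-- membership in the connection set -/
def An (w : E2 J × (E2 I × E2 K)) : Prop :=
  (∃ a, w = (uv a, (0, 0))) ∨ (∃ i, w.2 = (uv i, 0)) ∨ (∃ i, w = (0, (0, uv i)))

lemma An_iff (cJ : J → Fin k) (cI' : I → Fin k) (cK : K → Fin k)
    (w : E2 J × (E2 I × E2 K)) : (∃ c, Co cJ cI' cK c w) ↔ An w := by
  constructor
  · rintro ⟨c, ⟨a, _, h⟩ | ⟨a, _, h⟩ | ⟨a, _, h⟩⟩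
    · exact Or.inl ⟨a, h⟩
    · exact Or.inr (Or.inl ⟨a, h⟩)
    · exact Or.inr (Or.inr ⟨a, h⟩)
  · rintro (⟨a, h⟩ | ⟨a, h⟩ | ⟨a, h⟩)
    · exact ⟨cJ a, Or.inl ⟨a, rfl, h⟩⟩
    · exact ⟨cI' a, Or.inr (Or.inl ⟨a, rfl, h⟩)⟩
    · exact ⟨cK a, Or.inr (Or.inr ⟨a, rfl, h⟩)⟩

lemma Co_zero (cJ : J → Fin k) (cI' : I → Fin k) (cK : K → Fin k) (c : Fin k) :
    ¬ Co cJ cI' cK c 0 := by
  rintro (⟨a, _, h⟩ | ⟨a, _, h⟩ | ⟨a, _, h⟩)
  · exact uv_ne a (congrArg Prod.fst h).symm
  · exact uv_ne a (congrArg Prod.fst h).symm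
  · exact uv_ne a (congrArg (fun z => z.2.2) h).symm

lemma Co_excl (cJ : J → Fin k) (cI' : I → Fin k) (cK : K → Fin k) (c c' : Fin k)
    (w : E2 J × (E2 I × E2 K)) (h : Co cJ cI' cK c w) (h' : Co cJ cI' cK c' w) : c = c' := by
  rcases h with ⟨a, ha, h⟩ | ⟨a, ha, h⟩ | ⟨a, ha, h⟩ <;>
    rcases h' with ⟨b, hb, h'⟩ | ⟨b, hb, h'⟩ | ⟨b, hb, h'⟩
  · rw [h] at h'
    rw [← ha, ← hb, uv_inj (congrArg Prod.fst h')]
  · rw [h] at h'
    exact (uv_ne b (congrArg Prod.fst h').symm).elim
  · rw [h] at h'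
    exact (uv_ne a (congrArg Prod.fst h')).elim
  · rw [h'] at h
    exact (uv_ne a (congrArg Prod.fst h).symm).elim
  · rw [h] at h'
    rw [← ha, ← hb, uv_inj (congrArg Prod.fst h')]
  · rw [h'] at h
    exact (uv_ne a (congrArg Prod.fst h).symm).elim
  · rw [h] at h'
    exact (uv_ne b (congrArg Prod.fst h').symm).elim
  · rw [h] at h'
    exact (uv_ne b (congrArg Prod.fst h').symm).elim
  · rw [h] at h'
    rw [← ha, ← hb, uv_inj (congrArg (fun z => z.2.2) h')]

/-- fibre over a small element -/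
lemma fibre_small (a : J) :
    cn (fun x : E2 J × (E2 I × E2 K) => An x ∧ An (x + (uv a, (0, 0)))) =
      Fintype.card I * Fintype.card (E2 J) := by
  have h : cn (fun x : E2 J × (E2 I × E2 K) => An x ∧ An (x + (uv a, (0, 0)))) =
      cn (fun _ : I × E2 J => True) := by
    refine cn_param (fun z => (z.2, (uv z.1, 0))) ?_ ?_
    · rintro ⟨i, y⟩ ⟨i', y'⟩ _ _ h
      obtain ⟨h1, h2⟩ := Prod.mk.inj h
      exact Prod.ext (uv_inj (Prod.mk.inj h2).1) h1
    · rintro ⟨y, f, g⟩
      constructor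
      · rintro ⟨h1, h2⟩
        rcases h1 with ⟨b, h1⟩ | ⟨i, h1⟩ | ⟨i, h1⟩
        · exfalso
          rw [h1] at h2
          rcases h2 with ⟨c, h2⟩ | ⟨i, h2⟩ | ⟨i, h2⟩
          · exact uv_add_ne b a c (congrArg Prod.fst h2)
          · exact uv_ne i (by simpa using (congrArg Prod.fst h2).symm)
          · exact uv_ne i (by simpa using (congrArg (fun z => z.2.2) h2).symm)
        · exact ⟨(i, y), trivial, Prod.ext rfl h1.symm⟩
        · exfalso
          rw [h1] at h2
          rcases h2 with ⟨c, h2⟩ | ⟨j, h2⟩ | ⟨j, h2⟩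
          · exact uv_ne i (by simpa using (congrArg (fun z => z.2.2) h2))
          · exact uv_ne j (by simpa using (congrArg Prod.fst h2).symm)
          · exact uv_ne a (by simpa using (congrArg Prod.fst h2))
      · rintro ⟨⟨i, y'⟩, _, h⟩
        obtain ⟨rfl, h2⟩ := Prod.mk.inj h
        refine ⟨Or.inr (Or.inl ⟨i, h2.symm⟩), Or.inr (Or.inl ⟨i, ?_⟩)⟩
        change (f, g) + (0, 0) = _
        rw [← h2]
        simp
  rw [h, cn_true, Fintype.card_prod]

/-- fibre over a block element -/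
lemma fibre_block (w : E2 J × (E2 I × E2 K)) (i : I) (hw : w.2 = (uv i, 0)) :
    cn (fun x : E2 J × (E2 I × E2 K) => An x ∧ An (x + w)) = 2 * Fintype.card J := by
  have h : cn (fun x : E2 J × (E2 I × E2 K) => An x ∧ An (x + w)) =
      cn (fun x : E2 J × (E2 I × E2 K) => (∃ a, x = (uv a, (0, 0))) ∨
        (∃ a, x = w + (uv a, (0, 0)))) := by
    refine cn_congr fun x => ?_
    constructor
    · rintro ⟨h1, h2⟩
      rcases h1 with ⟨b, h1⟩ | ⟨i', h1⟩ | ⟨i', h1⟩
      · exact Or.inl ⟨b, h1⟩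
      · right
        rcases h2 with ⟨c, h2⟩ | ⟨j, h2⟩ | ⟨j, h2⟩
        · refine ⟨c, ?_⟩
          rw [← h2, add_comm x w, ← add_assoc]
          have : w + w = 0 := Prod.ext (e2_add_self _) (Prod.ext (e2_add_self _) (e2_add_self _))
          rw [this, zero_add]
        · exfalso
          have h3 : x.2 + w.2 = (uv j, 0) := h2
          rw [h1, hw] at h3
          exact uv_add_ne i' i j (congrArg Prod.fst h3)
        · exfalso
          have h3 : x.2 + w.2 = (0, uv j) := congrArg Prod.snd h2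
          rw [h1, hw] at h3
          exact uv_ne j (by simpa using (congrArg Prod.snd h3).symm)
      · exfalso
        have hx : x.2 = (0, uv i') := congrArg Prod.snd h1
        rcases h2 with ⟨c, h2⟩ | ⟨j, h2⟩ | ⟨j, h2⟩
        · have h3 : x.2 + w.2 = (0, 0) := congrArg Prod.snd h2
          rw [hx, hw] at h3
          exact uv_ne i' (by simpa using (congrArg Prod.snd h3))
        · have h3 : x.2 + w.2 = (uv j, 0) := h2
          rw [hx, hw] at h3
          exact uv_ne i' (by simpa using (congrArg Prod.snd h3))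
        · have h3 : x.2 + w.2 = (0, uv j) := congrArg Prod.snd h2
          rw [hx, hw] at h3
          exact uv_ne i (by simpa using (congrArg Prod.fst h3))
    · rintro (⟨a, h⟩ | ⟨a, h⟩)
      · refine ⟨Or.inl ⟨a, h⟩, Or.inr (Or.inl ⟨i, ?_⟩)⟩
        change x.2 + w.2 = _
        rw [h, hw]
        simp
      · refine ⟨Or.inr (Or.inl ⟨i, ?_⟩), Or.inl ⟨a, ?_⟩⟩
        · rw [h]
          change w.2 + (0, 0) = _
          rw [hw]
          simp
        · rw [h, add_comm w, add_assoc]
          have : w + w = 0 := Prod.ext (e2_add_self _) (Prod.ext (e2_add_self _) (e2_add_self _))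
          rw [this, add_zero]
  have h1 : cn (fun x : E2 J × (E2 I × E2 K) => ∃ a, x = (uv a, (0, 0))) = Fintype.card J := by
    rw [← cn_true (α := J)]
    refine cn_param (fun a => (uv a, (0, 0))) ?_ ?_
    · intro a b _ _ h
      exact uv_inj (Prod.mk.inj h).1
    · intro y
      constructor
      · rintro ⟨a, h⟩; exact ⟨a, trivial, h.symm⟩
      · rintro ⟨a, _, h⟩; exact ⟨a, h.symm⟩
  have h2 : cn (fun x : E2 J × (E2 I × E2 K) => ∃ a, x = w + (uv a, (0, 0))) =
      Fintype.card J := by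
    rw [← cn_true (α := J)]
    refine cn_param (fun a => w + (uv a, (0, 0))) ?_ ?_
    · intro a b _ _ h
      exact uv_inj (Prod.mk.inj (add_left_cancel h)).1
    · intro y
      constructor
      · rintro ⟨a, h⟩; exact ⟨a, trivial, h.symm⟩
      · rintro ⟨a, _, h⟩; exact ⟨a, h.symm⟩
  rw [h, cn_or_eq, h1, h2]
  · ring
  · rintro x ⟨a, rfl⟩ ⟨b, h⟩
    have h3 : ((0 : E2 I), (0 : E2 K)) = w.2 + (0, 0) := congrArg Prod.snd h
    rw [hw] at h3
    exact uv_ne i (by simpa using (congrArg Prod.fst h3).symm)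

/-- fibre over a filler element -/
lemma fibre_filler (i : K) :
    cn (fun x : E2 J × (E2 I × E2 K) => An x ∧ An (x + (0, (0, uv i)))) = 0 := by
  refine cn_zero ?_
  rintro x ⟨h1, h2⟩
  rcases h1 with ⟨b, h1⟩ | ⟨i', h1⟩ | ⟨i', h1⟩
  · rw [h1] at h2
    rcases h2 with ⟨c, h2⟩ | ⟨j, h2⟩ | ⟨j, h2⟩
    · exact uv_ne i (by simpa using (congrArg (fun z => z.2.2) h2))
    · exact uv_ne i (by simpa using (congrArg Prod.snd h2))
    · exact uv_ne b (by simpa using (congrArg Prod.fst h2))
  · rcases h2 with ⟨c, h2⟩ | ⟨j, h2⟩ | ⟨j, h2⟩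
    · have h3 : x.2 + (0, uv i) = (0, 0) := congrArg Prod.snd h2
      rw [h1] at h3
      exact uv_ne i (by simpa using (congrArg Prod.snd h3))
    · have h3 : x.2 + (0, uv i) = (uv j, 0) := h2
      rw [h1] at h3
      exact uv_ne i (by simpa using (congrArg Prod.snd h3))
    · have h3 : x.2 + (0, uv i) = (0, uv j) := congrArg Prod.snd h2
      rw [h1] at h3
      exact uv_ne i' (by simpa using (congrArg Prod.fst h3))
  · rw [h1] at h2
    rcases h2 with ⟨c, h2⟩ | ⟨j, h2⟩ | ⟨j, h2⟩
    · exact uv_ne c (by simpa using (congrArg Prod.fst h2).symm)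
    · exact uv_ne j (by simpa using (congrArg Prod.fst h2).symm)
    · exact uv_add_ne i' i j (congrArg (fun z => z.2.2) h2)

/-- counting the connection set -/
lemma cn_Co (cJ : J → Fin k) (cI' : I → Fin k) (cK : K → Fin k) (c : Fin k) :
    cn (Co cJ cI' cK c) = cn (fun a => cJ a = c) +
      (cn (fun i => cI' i = c) * Fintype.card (E2 J) + cn (fun i => cK i = c)) := by
  have h1 : cn (fun w : E2 J × (E2 I × E2 K) => ∃ a, cJ a = c ∧ w = (uv a, (0, 0))) =
      cn (fun a => cJ a = c) := by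
    refine cn_param (fun a => (uv a, (0, 0))) ?_ ?_
    · intro a b _ _ h
      exact uv_inj (Prod.mk.inj h).1
    · intro y
      constructor
      · rintro ⟨a, ha, h⟩; exact ⟨a, ha, h.symm⟩
      · rintro ⟨a, ha, h⟩; exact ⟨a, ha, h.symm⟩
  have h2 : cn (fun w : E2 J × (E2 I × E2 K) => ∃ i, cI' i = c ∧ w.2 = (uv i, 0)) =
      cn (fun i => cI' i = c) * Fintype.card (E2 J) := by
    rw [← cn_fst (β := E2 J) (fun i => cI' i = c)]
    refine cn_param (fun z => (z.2, (uv z.1, 0))) ?_ ?_
    · rintro ⟨i, y⟩ ⟨i', y'⟩ _ _ h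
      obtain ⟨h1, h2⟩ := Prod.mk.inj h
      exact Prod.ext (uv_inj (Prod.mk.inj h2).1) h1
    · rintro ⟨y, fg⟩
      constructor
      · rintro ⟨i, hi, h⟩; exact ⟨(i, y), hi, Prod.ext rfl h.symm⟩
      · rintro ⟨⟨i, y'⟩, hi, h⟩; exact ⟨i, hi, (Prod.mk.inj h).2.symm⟩
  have h3 : cn (fun w : E2 J × (E2 I × E2 K) => ∃ i, cK i = c ∧ w = (0, (0, uv i))) =
      cn (fun i => cK i = c) := by
    refine cn_param (fun i => (0, (0, uv i))) ?_ ?_
    · intro a b _ _ h
      exact uv_inj (Prod.mk.inj (Prod.mk.inj h).2).2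
    · intro y
      constructor
      · rintro ⟨a, ha, h⟩; exact ⟨a, ha, h.symm⟩
      · rintro ⟨a, ha, h⟩; exact ⟨a, ha, h.symm⟩
  unfold Co
  rw [cn_or_eq, cn_or_eq, h1, h2, h3]
  · rintro x ⟨a, _, ha⟩ ⟨b, _, hb⟩
    rw [hb] at ha
    exact uv_ne a (congrArg Prod.fst ha).symm
  · rintro x ⟨a, _, ha⟩ (⟨b, _, hb⟩ | ⟨b, _, hb⟩)
    · rw [ha] at hb
      exact uv_ne b (congrArg Prod.fst hb).symm
    · rw [ha] at hb
      exact uv_ne a (congrArg Prod.fst hb)

/-- counting the triangles at a colour -/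
lemma cn_tri (cJ : J → Fin k) (cI' : I → Fin k) (cK : K → Fin k) (c : Fin k) :
    cn (fun z : (E2 J × (E2 I × E2 K)) × (E2 J × (E2 I × E2 K)) =>
      Co cJ cI' cK c z.1 ∧ ((∃ c, Co cJ cI' cK c z.2) ∧ (∃ c, Co cJ cI' cK c (z.2 + z.1)))) =
    cn (fun a => cJ a = c) * (Fintype.card I * Fintype.card (E2 J)) +
      cn (fun i => cI' i = c) * Fintype.card (E2 J) * (2 * Fintype.card J) := by
  have e : cn (fun z : (E2 J × (E2 I × E2 K)) × (E2 J × (E2 I × E2 K)) =>
      Co cJ cI' cK c z.1 ∧ ((∃ c, Co cJ cI' cK c z.2) ∧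
        (∃ c, Co cJ cI' cK c (z.2 + z.1)))) =
      cn (fun z : (E2 J × (E2 I × E2 K)) × (E2 J × (E2 I × E2 K)) =>
      ((∃ a, cJ a = c ∧ z.1 = (uv a, (0, 0))) ∧ (An z.2 ∧ An (z.2 + z.1))) ∨
      (((∃ i, cI' i = c ∧ z.1.2 = (uv i, 0)) ∧ (An z.2 ∧ An (z.2 + z.1))) ∨
      ((∃ i, cK i = c ∧ z.1 = (0, (0, uv i))) ∧ (An z.2 ∧ An (z.2 + z.1))))) := by
    refine cn_congr fun z => ?_
    rw [An_iff, An_iff]
    unfold Co
    constructor
    · rintro ⟨h1 | h1 | h1, h2⟩
      · exact Or.inl ⟨h1, h2⟩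
      · exact Or.inr (Or.inl ⟨h1, h2⟩)
      · exact Or.inr (Or.inr ⟨h1, h2⟩)
    · rintro (⟨h1, h2⟩ | ⟨h1, h2⟩ | ⟨h1, h2⟩)
      · exact ⟨Or.inl h1, h2⟩
      · exact ⟨Or.inr (Or.inl h1), h2⟩
      · exact ⟨Or.inr (Or.inr h1), h2⟩
  have h1 : cn (fun w : E2 J × (E2 I × E2 K) => ∃ a, cJ a = c ∧ w = (uv a, (0, 0))) =
      cn (fun a => cJ a = c) := by
    refine cn_param (fun a => (uv a, (0, 0))) ?_ ?_
    · intro a b _ _ h
      exact uv_inj (Prod.mk.inj h).1
    · intro y
      constructor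
      · rintro ⟨a, ha, h⟩; exact ⟨a, ha, h.symm⟩
      · rintro ⟨a, ha, h⟩; exact ⟨a, ha, h.symm⟩
  have h2 : cn (fun w : E2 J × (E2 I × E2 K) => ∃ i, cI' i = c ∧ w.2 = (uv i, 0)) =
      cn (fun i => cI' i = c) * Fintype.card (E2 J) := by
    rw [← cn_fst (β := E2 J) (fun i => cI' i = c)]
    refine cn_param (fun z => (z.2, (uv z.1, 0))) ?_ ?_
    · rintro ⟨i, y⟩ ⟨i', y'⟩ _ _ h
      obtain ⟨h1, h2⟩ := Prod.mk.inj h
      exact Prod.ext (uv_inj (Prod.mk.inj h2).1) h1
    · rintro ⟨y, fg⟩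
      constructor
      · rintro ⟨i, hi, h⟩; exact ⟨(i, y), hi, Prod.ext rfl h.symm⟩
      · rintro ⟨⟨i, y'⟩, hi, h⟩; exact ⟨i, hi, (Prod.mk.inj h).2.symm⟩
  rw [e, cn_or_eq, cn_or_eq]
  · rw [cn_guard_eq (fun w : E2 J × (E2 I × E2 K) => ∃ a, cJ a = c ∧ w = (uv a, (0, 0)))
      (fun w x => An x ∧ An (x + w)) (Fintype.card I * Fintype.card (E2 J)) ?_,
      cn_guard_eq (fun w : E2 J × (E2 I × E2 K) => ∃ i, cI' i = c ∧ w.2 = (uv i, 0))
      (fun w x => An x ∧ An (x + w)) (2 * Fintype.card J) ?_,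
      cn_guard_eq (fun w : E2 J × (E2 I × E2 K) => ∃ i, cK i = c ∧ w = (0, (0, uv i)))
      (fun w x => An x ∧ An (x + w)) 0 ?_, h1, h2]
    · ring
    · rintro w ⟨i, _, rfl⟩
      exact fibre_filler i
    · rintro w ⟨i, _, hw⟩
      exact fibre_block w i hw
    · rintro w ⟨a, _, rfl⟩
      exact fibre_small a
  · rintro x ⟨⟨a, _, ha⟩, _⟩ ⟨⟨b, _, hb⟩, _⟩
    rw [hb] at ha
    exact uv_ne a (congrArg Prod.fst ha).symm
  · rintro x ⟨⟨a, _, ha⟩, _⟩ (⟨⟨b, _, hb⟩, _⟩ | ⟨⟨b, _, hb⟩, _⟩)
    · rw [ha] at hb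
      exact uv_ne b (congrArg Prod.fst hb).symm
    · rw [ha] at hb
      exact uv_ne a (congrArg Prod.fst hb)

lemma cn_sigma (α : Fin k → ℕ) (c : Fin k) :
    cn (fun a : (Σ c : Fin k, Fin (α c)) => a.1 = c) = α c := by
  have h : cn (fun a : (Σ c : Fin k, Fin (α c)) => a.1 = c) = cn (fun _ : Fin (α c) => True) := by
    refine cn_param (fun x => ⟨c, x⟩) ?_ ?_
    · intro x y _ _ h
      simpa using h
    · rintro ⟨c', x⟩
      constructor
      · intro h
        simp only at h
        subst h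
        exact ⟨x, trivial, rfl⟩
      · rintro ⟨y, _, h⟩
        exact (congrArg Sigma.fst h).symm
  rw [h, cn_true, Fintype.card_fin]

/-- The construction with parameters. -/
theorem construct (j0 : Fin k) (α μ ν : Fin k → ℕ) :
    ∃ (V : Type) (_ : Finite V) (_ : Nonempty V) (G : SimpleGraph V) (f : Sym2 V → Fin k),
      (∀ v c, colourDegree G f c v = α c + (μ c * 2 ^ (∑ c, α c) + ν c)) ∧
      (∀ v c, 2 * closedCount G f c v = 2 * (α c + (μ c * 2 ^ (∑ c, α c) + ν c)) +
        (α c * ((∑ c, μ c) * 2 ^ (∑ c, α c)) +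
          μ c * 2 ^ (∑ c, α c) * (2 * ∑ c, α c))) := by
  classical
  set J := (Σ c : Fin k, Fin (α c))
  set I := (Σ c : Fin k, Fin (μ c))
  set K := (Σ c : Fin k, Fin (ν c))
  set cJ : J → Fin k := fun a => a.1
  set cI' : I → Fin k := fun a => a.1
  set cK : K → Fin k := fun a => a.1
  have hJ : Fintype.card J = ∑ c, α c := by simp [J]
  have hI : Fintype.card I = ∑ c, μ c := by simp [I]
  have hE : Fintype.card (E2 J) = 2 ^ (∑ c, α c) := by
    rw [Fintype.card_fun, ZMod.card, hJ]
  have h2 : ∀ x : E2 J × (E2 I × E2 K), x + x = 0 := fun x =>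
    Prod.ext (e2_add_self _) (Prod.ext (e2_add_self _) (e2_add_self _))
  refine ⟨E2 J × (E2 I × E2 K), inferInstance, ⟨0⟩,
    CG h2 (Co cJ cI' cK) (Co_zero cJ cI' cK), Cf (Co cJ cI' cK) j0, ?_, ?_⟩
  · intro v c
    rw [CG_degree h2 _ _ (Co_excl cJ cI' cK), cn_Co, hE, cn_sigma α c, cn_sigma μ c,
      cn_sigma ν c]
  · intro v c
    rw [CG_closed h2 _ _ (Co_excl cJ cI' cK), cn_tri, cn_Co, hE, cn_sigma α c, cn_sigma μ c,
      cn_sigma ν c, hI, hJ]

end explicit

section final

lemma card_lt_fin {k q : ℕ} (hqk : q ≤ k) :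
    (univ.filter (fun j : Fin k => (j : ℕ) < q)).card = q := by
  have : univ.filter (fun j : Fin k => (j : ℕ) < q) =
      (Finset.univ : Finset (Fin q)).map (Fin.castLEEmb hqk) := by
    ext j
    simp only [Finset.mem_filter, Finset.mem_univ, true_and, Finset.mem_map,
      Fin.castLEEmb_apply]
    constructor
    · intro hj
      exact ⟨⟨j, hj⟩, rfl⟩
    · rintro ⟨i, rfl⟩
      exact i.2
  rw [this, Finset.card_map, Finset.card_univ, Fintype.card_fin]

lemma card_ge_fin {k q : ℕ} (hqk : q ≤ k) :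
    (univ.filter (fun j : Fin k => ¬ (j : ℕ) < q)).card = k - q := by
  have h := Finset.card_filter_add_card_filter_not (s := (univ : Finset (Fin k)))
      (fun j : Fin k => (j : ℕ) < q)
  rw [card_lt_fin hqk, Finset.card_univ, Fintype.card_fin] at h
  omega

theorem lower (k q N : ℕ) (hq : 1 ≤ q) (hk : 3 * q + 1 ≤ k) :
    ∃ a : Fin k → ℕ, IsFlipSeq a ∧ (∃ i : Fin k, (i : ℕ) + 1 = q ∧ a i = 2 * q ^ 2 + 2 + 2 * q) ∧
      (∃ l : Fin k, (l : ℕ) + 1 = k ∧ N < a l) := by
  classical
  set α0 := 2 * q ^ 2 + 2 with hα0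
  set α : Fin k → ℕ := fun c => if (c : ℕ) < q then α0 + (q - c) else 0 with hα
  set A := ∑ c, α c with hA
  set μ0 := N + 4 * k + 2 * A * k + α0 + 2 * q + 1 with hμ0
  set μ : Fin k → ℕ := fun c => if (c : ℕ) < q then 0 else μ0 + (k - c) with hμ
  set M := ∑ c, μ c with hM
  set P := 2 ^ A with hP
  set ν : Fin k → ℕ := fun c => if (c : ℕ) < q then 2 * c + 1 else (P + 1) * c with hν
  have hqk : q ≤ k := by omega
  have hAle : A ≤ q * (α0 + q) := by
    calc A = ∑ c ∈ univ.filter (fun j : Fin k => (j : ℕ) < q), (α0 + (q - (c : ℕ))) := by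
          rw [hA, Finset.sum_filter]
      _ ≤ ∑ _c ∈ univ.filter (fun j : Fin k => (j : ℕ) < q), (α0 + q) :=
          Finset.sum_le_sum fun c _ => by omega
      _ = q * (α0 + q) := by rw [Finset.sum_const, card_lt_fin hqk, smul_eq_mul]
  have hA2 : 2 ≤ A := by
    have h1 : α ⟨0, by omega⟩ ≤ A :=
      Finset.single_le_sum (f := α) (fun c _ => Nat.zero_le _) (Finset.mem_univ _)
    have h2 : α ⟨0, by omega⟩ = α0 + (q - 0) := by
      simp only [hα]
      rw [if_pos (by omega : 0 < q)]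
    omega
  have hMge : (k - q) * (μ0 + 1) ≤ M := by
    calc (k - q) * (μ0 + 1) =
        ∑ _c ∈ univ.filter (fun j : Fin k => ¬ (j : ℕ) < q), (μ0 + 1) := by
          rw [Finset.sum_const, card_ge_fin hqk, smul_eq_mul]
      _ ≤ ∑ c ∈ univ.filter (fun j : Fin k => ¬ (j : ℕ) < q), (μ0 + (k - (c : ℕ))) :=
          Finset.sum_le_sum fun c _ => by have := c.2; omega
      _ = M := by
          rw [hM, Finset.sum_filter]
          refine Finset.sum_congr rfl fun c _ => ?_
          simp only [hμ]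
          by_cases h : (c : ℕ) < q <;> simp [h]
  have hP4 : 4 ≤ P := by
    calc 4 = 2 ^ 2 := by norm_num
      _ ≤ 2 ^ A := Nat.pow_le_pow_right (by norm_num) hA2
  obtain ⟨V, hVf, hVn, G, f, hdeg, hcl⟩ := construct ⟨0, by omega⟩ α μ ν
  set a : Fin k → ℕ := fun c => α c + (μ c * P + ν c) with ha
  have asmall : ∀ c : Fin k, (c : ℕ) < q → a c = α0 + q + c + 1 := by
    intro c hc
    simp only [ha, hα, hμ, hν, if_pos hc]
    omega
  have alarge : ∀ c : Fin k, ¬ (c : ℕ) < q → a c = P * (μ0 + k) + c := by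
    intro c hc
    simp only [ha, hα, hμ, hν, if_neg hc]
    have h1 : c + (k - c) = k := by have := c.2; omega
    calc 0 + ((μ0 + (k - (c : ℕ))) * P + (P + 1) * c) = P * (μ0 + (c + (k - c))) + c := by ring
      _ = P * (μ0 + k) + c := by rw [h1]
  have hPk : μ0 + k ≤ P * (μ0 + k) := Nat.le_mul_of_pos_left _ (by omega)
  have hmono : StrictMono a := by
    intro i j hij
    have hij' : (i : ℕ) < j := hij
    by_cases hi : (i : ℕ) < q
    · by_cases hj : (j : ℕ) < q
      · rw [asmall i hi, asmall j hj]; omega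
      · rw [asmall i hi, alarge j hj]; omega
    · have hj : ¬ (j : ℕ) < q := by omega
      rw [alarge i hi, alarge j hj]; omega
  have hclosed : ∀ v c, 2 * closedCount G f c v = 2 * a c +
      (α c * (M * P) + μ c * P * (2 * A)) := hcl
  refine ⟨a, ⟨?_, hmono, V, hVf, hVn, G, f, hdeg, ?_⟩, ?_, ?_⟩
  · intro j
    by_cases hj : (j : ℕ) < q
    · rw [asmall j hj]; omega
    · rw [alarge j hj]; omega
  · intro v i j hij
    have hij' : (i : ℕ) < j := hij
    change closedCount G f j v < closedCount G f i v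
    have ci := hclosed v i
    have cj := hclosed v j
    have hM4 : 1 ≤ M := by
      refine le_trans ?_ hMge
      exact Nat.one_le_iff_ne_zero.2 (Nat.mul_ne_zero (by omega) (by omega))
    have hX : 4 ≤ M * P := le_trans hP4 (Nat.le_mul_of_pos_left _ hM4)
    have hY : 4 ≤ P * (2 * A) := by nlinarith
    by_cases hi : (i : ℕ) < q
    · by_cases hj : (j : ℕ) < q
      · rw [asmall i hi] at ci
        rw [asmall j hj] at cj
        have e1 : α i = α0 + (q - i) := by simp only [hα, if_pos hi]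
        have e2 : α j = α0 + (q - j) := by simp only [hα, if_pos hj]
        have e3 : μ i = 0 := by simp only [hμ, if_pos hi]
        have e4 : μ j = 0 := by simp only [hμ, if_pos hj]
        rw [e1, e3] at ci
        rw [e2, e4] at cj
        obtain ⟨d, hd⟩ : ∃ d, (j : ℕ) = i + d := ⟨j - i, by omega⟩
        have e5 : α0 + (q - (i : ℕ)) = (α0 + (q - j)) + d := by omega
        rw [e5] at ci
        have e6 : ((α0 + (q - (j : ℕ))) + d) * (M * P) =
            (α0 + (q - (j : ℕ))) * (M * P) + d * (M * P) := by ring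
        rw [e6] at ci
        have e7 : d * 4 ≤ d * (M * P) := Nat.mul_le_mul_left _ hX
        simp only [zero_mul, add_zero] at ci cj
        omega
      · rw [asmall i hi] at ci
        rw [alarge j hj] at cj
        have e1 : α i = α0 + (q - i) := by simp only [hα, if_pos hi]
        have e2 : α j = 0 := by simp only [hα, if_neg hj]
        have e3 : μ i = 0 := by simp only [hμ, if_pos hi]
        have e4 : μ j = μ0 + (k - j) := by simp only [hμ, if_neg hj]
        rw [e1, e3] at ci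
        rw [e2, e4] at cj
        simp only [zero_mul, add_zero, zero_add] at ci cj
        have f1 : (α0 + 1) * (M * P) ≤ (α0 + (q - (i : ℕ))) * (M * P) :=
          Nat.mul_le_mul_right _ (by omega)
        have f2 : (μ0 + (k - (j : ℕ))) * P * (2 * A) ≤ (μ0 + k) * P * (2 * A) :=
          Nat.mul_le_mul_right _ (Nat.mul_le_mul_right _ (by omega))
        have f3 : (2 * A + 3) * (μ0 + 1) ≤ (α0 + 1) * M := by
          have g1 : 2 * A + 3 ≤ (α0 + 1) * (2 * q + 1) := by
            have : (α0 + 1) * (2 * q + 1) = 2 * (q * (α0 + q)) + (α0 + 2 * q + 1 - 2 * q ^ 2) := by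
              have h5 : α0 + 2 * q + 1 - 2 * q ^ 2 = 2 + 2 * q + 1 := by omega
              rw [h5, hα0]; ring
            rw [this]
            have h6 : 3 ≤ α0 + 2 * q + 1 - 2 * q ^ 2 := by omega
            omega
          calc (2 * A + 3) * (μ0 + 1) ≤ (α0 + 1) * (2 * q + 1) * (μ0 + 1) :=
                Nat.mul_le_mul_right _ g1
            _ = (α0 + 1) * ((2 * q + 1) * (μ0 + 1)) := by ring
            _ ≤ (α0 + 1) * ((k - q) * (μ0 + 1)) :=
                Nat.mul_le_mul_left _ (Nat.mul_le_mul_right _ (by omega))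
            _ ≤ (α0 + 1) * M := Nat.mul_le_mul_left _ hMge
        have f4 : (2 * A + 3) * (μ0 + 1) * P ≤ (α0 + 1) * (M * P) := by
          calc (2 * A + 3) * (μ0 + 1) * P ≤ (α0 + 1) * M * P := Nat.mul_le_mul_right _ f3
            _ = (α0 + 1) * (M * P) := by ring
        have f5 : 2 * (P * (μ0 + k)) + 2 * k + (μ0 + k) * P * (2 * A) <
            (2 * A + 3) * (μ0 + 1) * P := by
          have g2 : 2 * k + 1 ≤ P * (2 * k + 1) := Nat.le_mul_of_pos_left _ (by omega)
          have g3 : P * (2 * (μ0 + k) + (2 * k + 1) + (μ0 + k) * (2 * A)) ≤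
              P * ((2 * A + 3) * (μ0 + 1)) := by
            refine Nat.mul_le_mul_left _ ?_
            have g4 : (2 * A + 3) * (μ0 + 1) = 2 * (A * μ0) + 3 * μ0 + 2 * A + 3 := by ring
            have g5 : (μ0 + k) * (2 * A) = 2 * (A * μ0) + 2 * A * k := by ring
            rw [g4, g5]
            omega
          have g6 : P * (2 * (μ0 + k) + (2 * k + 1) + (μ0 + k) * (2 * A)) =
              2 * (P * (μ0 + k)) + P * (2 * k + 1) + (μ0 + k) * P * (2 * A) := by ring
          have g7 : P * ((2 * A + 3) * (μ0 + 1)) = (2 * A + 3) * (μ0 + 1) * P := by ring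
          rw [g6, g7] at g3
          omega
        have hjk := j.2
        omega
    · have hj : ¬ (j : ℕ) < q := by omega
      rw [alarge i hi] at ci
      rw [alarge j hj] at cj
      have e1 : α i = 0 := by simp only [hα, if_neg hi]
      have e2 : α j = 0 := by simp only [hα, if_neg hj]
      have e3 : μ i = μ0 + (k - i) := by simp only [hμ, if_neg hi]
      have e4 : μ j = μ0 + (k - j) := by simp only [hμ, if_neg hj]
      rw [e1, e3] at ci
      rw [e2, e4] at cj
      obtain ⟨d, hd⟩ : ∃ d, (j : ℕ) = i + d := ⟨j - i, by omega⟩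
      have hjk := j.2
      have e5 : μ0 + (k - (i : ℕ)) = (μ0 + (k - j)) + d := by omega
      rw [e5] at ci
      have e6 : ((μ0 + (k - (j : ℕ))) + d) * P * (2 * A) =
          (μ0 + (k - (j : ℕ))) * P * (2 * A) + d * (P * (2 * A)) := by ring
      rw [e6] at ci
      have e7 : d * 4 ≤ d * (P * (2 * A)) := Nat.mul_le_mul_left _ hY
      simp only [zero_mul, zero_add] at ci cj
      omega
  · refine ⟨⟨q - 1, by omega⟩, by simp only; omega, ?_⟩
    rw [asmall ⟨q - 1, by omega⟩ (by simp only; omega)]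
    simp only
    omega
  · refine ⟨⟨k - 1, by omega⟩, by simp only; omega, ?_⟩
    rw [alarge ⟨k - 1, by omega⟩ (by simp only; omega)]
    simp only
    omega

/-- Position q is bounded (for k colours): for some positive h there are, for every N, k-flip
sequences whose entry in position q equals h and whose last entry (position k) exceeds N.
(Positions are counted from 1, indices of Fin k from 0.) -/
def PositionBounded (k q : ℕ) : Prop :=
  ∃ h : ℕ, 0 < h ∧ ∀ N : ℕ, ∃ a : Fin k → ℕ, IsFlipSeq a ∧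
    (∃ i : Fin k, (i : ℕ) + 1 = q ∧ a i = h) ∧ (∃ l : Fin k, (l : ℕ) + 1 = k ∧ N < a l)

/-- For every k ≥ 4 the largest bounded position q(k) equals ⌊(k-1)/3⌋; moreover position q is
bounded exactly when 3q < k. -/
theorem result : ∀ k : ℕ, 4 ≤ k →
    IsGreatest {q : ℕ | 1 ≤ q ∧ q ≤ k - 1 ∧ PositionBounded k q} ((k - 1) / 3) ∧
    ∀ q : ℕ, 1 ≤ q → q ≤ k - 1 → (PositionBounded k q ↔ 3 * q < k) := by
  intro k hk
  have hiff : ∀ q : ℕ, 1 ≤ q → q ≤ k - 1 → (PositionBounded k q ↔ 3 * q < k) := by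
    intro q hq1 hq2
    constructor
    · rintro ⟨h, _, hN⟩
      by_contra hlt
      obtain ⟨a, ha, ⟨i, hi, hai⟩, ⟨l, hl, hal⟩⟩ := hN (k * (k * h + (k * h) ^ 2))
      have := flip_upper a ha q hq1 (by omega) h (fun j hj => by
        rw [← hai]
        exact ha.2.1.monotone (by rw [Fin.le_def]; omega)) l (by omega)
      omega
    · intro hlt
      refine ⟨2 * q ^ 2 + 2 + 2 * q, by positivity, fun N => ?_⟩
      exact lower k q N hq1 (by omega)
  refine ⟨⟨⟨by omega, by omega, ?_⟩, ?_⟩, hiff⟩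
  · exact (hiff _ (by omega) (by omega)).2 (by omega)
  · rintro q ⟨h1, h2, h3⟩
    have := (hiff q h1 h2).1 h3
    omega

end final

end Pool.Agent.Results.MP_1aba1b_co.BoundedPositions
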